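import Pool.Agent.Lib.MP_6bc78b_nt.GP.Iface
import Pool.Agent.Lib.MP_6bc78b_nt.MS.P1.SWAP

/-! Project GP, module RGT: the right line is `S_E`. -/

set_option autoImplicit false

open Complex Filter Topology MeasureTheory ArithmeticFunction Set
open scoped ENNReal

namespace Pool.Agent.Lib.MP_6bc78b_nt.GP.H69

open Pool.Agent.Lib.MP_6bc78b_nt.MS Pool.Agent.Lib.MP_6bc78b_nt.MS.P1
open Pool.Agent.Lib.MP_6bc78b_nt.GP

/-- The point `2 pi i n e^{u - i delta}`. -/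
noncomputable def zn (n : ℕ) (u δ : ℝ) : ℂ := 2 * Real.pi * I * n * Complex.exp (u - δ * I)

theorem zn_eq (n : ℕ) (hn : n ≠ 0) (u δ : ℝ) :
    zn n u δ = Complex.exp (((Real.log (2 * Real.pi * n) + u : ℝ) : ℂ) +
      ((Real.pi / 2 - δ : ℝ) : ℂ) * I) := by
  have hn' : (0:ℝ) < n := by exact_mod_cast Nat.pos_of_ne_zero hn
  have h : (0:ℝ) < 2 * Real.pi * n := by positivity
  have e1 : ((Real.log (2 * Real.pi * n) + u : ℝ) : ℂ) + ((Real.pi / 2 - δ : ℝ) : ℂ) * I =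
      ((Real.log (2 * Real.pi * n) : ℝ) : ℂ) + (((Real.pi / 2 : ℝ) : ℂ) * I) + (u - δ * I) := by
    push_cast; ring
  have e2 : Complex.exp (((Real.pi / 2 : ℝ) : ℂ) * I) = I := by
    rw [Complex.exp_mul_I, ← Complex.ofReal_cos, ← Complex.ofReal_sin, Real.cos_pi_div_two,
      Real.sin_pi_div_two]
    simp
  rw [e1, Complex.exp_add, Complex.exp_add, ← Complex.ofReal_exp, Real.exp_log h, e2]
  unfold zn
  push_cast
  ring

theorem zn_re (n : ℕ) (hn : n ≠ 0) (u δ : ℝ) (h0 : 0 < δ) (h1 : δ ≤ 1 / 2) :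
    0 < (zn n u δ).re := by
  rw [zn_eq n hn, Complex.exp_re]
  have e1 : (((Real.log (2 * Real.pi * n) + u : ℝ) : ℂ) + ((Real.pi / 2 - δ : ℝ) : ℂ) * I).im =
      Real.pi / 2 - δ := by
    simp
  rw [e1]
  apply mul_pos (Real.exp_pos _)
  apply Real.cos_pos_of_mem_Ioo
  have := Real.pi_gt_three
  constructor <;> linarith

theorem zn_cpow (n : ℕ) (hn : n ≠ 0) (u δ : ℝ) (h0 : 0 < δ) (h1 : δ ≤ 1 / 2) (s : ℂ) :
    Complex.Gamma s * zn n u δ ^ (-s) =
      om0 δ s * Complex.exp (-(u * s)) * (n : ℂ) ^ (-s) := by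
  have hn' : (0:ℝ) < n := by exact_mod_cast Nat.pos_of_ne_zero hn
  have hpi := Real.pi_gt_three
  have hlog : Complex.log (zn n u δ) = ((Real.log (2 * Real.pi * n) + u : ℝ) : ℂ) +
      ((Real.pi / 2 - δ : ℝ) : ℂ) * I := by
    rw [zn_eq n hn]
    apply Complex.log_exp
    · simp
      linarith
    · simp
      linarith
  have hz : zn n u δ ≠ 0 := by
    rw [zn_eq n hn]
    exact Complex.exp_ne_zero _
  have h2pi : (2 * Real.pi : ℂ) ≠ 0 := by
    exact_mod_cast (by positivity : (2 * Real.pi : ℝ) ≠ 0)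
  have hnc : (n : ℂ) ≠ 0 := by exact_mod_cast hn
  have hl : Real.log (2 * Real.pi * n) = Real.log (2 * Real.pi) + Real.log n :=
    Real.log_mul (by positivity) hn'.ne'
  rw [Complex.cpow_def_of_ne_zero hz, hlog]
  unfold om0
  rw [Complex.cpow_def_of_ne_zero h2pi, Complex.cpow_def_of_ne_zero hnc]
  have e2 : Complex.log (2 * Real.pi : ℂ) = ((Real.log (2 * Real.pi) : ℝ) : ℂ) := by
    rw [Complex.ofReal_log (by positivity)]
    push_cast
    rfl
  have e3 : Complex.log (n : ℂ) = ((Real.log n : ℝ) : ℂ) := by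
    rw [Complex.ofReal_log hn'.le]
    simp
  rw [e2, e3, hl, mul_assoc, mul_assoc, mul_assoc, ← Complex.exp_add, ← Complex.exp_add,
    ← Complex.exp_add]
  congr 2
  push_cast
  ring

/-- `e^{-n z'} = e^{-z_n}`. -/
theorem exp_zp (n : ℕ) (u δ : ℝ) :
    Complex.exp (-(n * zp u δ)) = Complex.exp (-(zn n u δ)) := by
  have e : (-(n * zp u δ) : ℂ) = -(zn n u δ) + n * (2 * Real.pi * I) := by
    unfold zp zn
    ring
  rw [e, Complex.exp_add, Complex.exp_nat_mul_two_pi_mul_I, mul_one]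

/-- The Gaussian integral. -/
theorem gauss (H t : ℝ) (hH : 1 ≤ H) (s : ℂ) :
    ∫ u : ℝ, ((H / Real.sqrt (2 * Real.pi) * Real.exp (-(H ^ 2 * u ^ 2) / 2) : ℝ) : ℂ) *
      Complex.exp (-(u * (s - 1 / 2 - t * I))) = GH H t s := by
  have hH0 : 0 < H := by linarith
  have hHc : (H : ℂ) ≠ 0 := by exact_mod_cast hH0.ne'
  have hb : (-(H ^ 2 / 2 : ℝ) : ℂ).re < 0 := by
    rw [Complex.neg_re, Complex.ofReal_re]
    have : 0 < H ^ 2 / 2 := by positivity
    linarith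
  have key := integral_cexp_quadratic hb (-(s - 1 / 2 - t * I)) 0
  have e1 : (fun u : ℝ => ((H / Real.sqrt (2 * Real.pi) * Real.exp (-(H ^ 2 * u ^ 2) / 2) : ℝ) : ℂ) *
      Complex.exp (-(u * (s - 1 / 2 - t * I)))) = fun u : ℝ =>
      ((H / Real.sqrt (2 * Real.pi) : ℝ) : ℂ) * cexp ((-(H ^ 2 / 2 : ℝ) : ℂ) * (u : ℂ) ^ 2 +
        (-(s - 1 / 2 - t * I)) * (u : ℂ) + 0) := by
    funext u
    rw [Complex.ofReal_mul, Complex.ofReal_exp, mul_assoc, ← Complex.exp_add]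
    congr 2
    push_cast
    ring
  rw [e1, integral_const_mul, key]
  have e2 : ((Real.pi : ℂ) / -(-(H ^ 2 / 2 : ℝ) : ℂ)) ^ (1 / 2 : ℂ) =
      ((Real.sqrt (2 * Real.pi) / H : ℝ) : ℂ) := by
    have e3 : ((Real.pi : ℂ) / -(-(H ^ 2 / 2 : ℝ) : ℂ)) = ((2 * Real.pi / H ^ 2 : ℝ) : ℂ) := by
      push_cast
      rw [neg_neg]
      field_simp
    have e4 : Real.sqrt (2 * Real.pi) / H = (2 * Real.pi / H ^ 2) ^ (1 / 2 : ℝ) := by
      rw [← Real.sqrt_eq_rpow, Real.sqrt_div (by positivity), Real.sqrt_sq hH0.le]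
    rw [e3, e4, Complex.ofReal_cpow (by positivity)]
    norm_num
  rw [e2, ← mul_assoc, ← Complex.ofReal_mul]
  have e5 : H / Real.sqrt (2 * Real.pi) * (Real.sqrt (2 * Real.pi) / H) = 1 := by
    have : Real.sqrt (2 * Real.pi) ≠ 0 := by positivity
    field_simp
  rw [e5, Complex.ofReal_one, one_mul]
  unfold GH
  congr 1
  push_cast
  field_simp
  ring


theorem line_sub (y t : ℝ) (s : ℂ) (hs : s = ((3 / 2 : ℝ) : ℂ) + y * I) :
    s - 1 / 2 - t * I = 1 + ((y - t : ℝ) : ℂ) * I := by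
  rw [hs]
  push_cast
  ring

theorem GH_norm (H t y : ℝ) (hH : 1 ≤ H) : ‖GH H t (((3 / 2 : ℝ) : ℂ) + y * I)‖ ≤ Real.exp 1 := by
  have hH0 : 0 < H := by linarith
  unfold GH
  rw [line_sub y t _ rfl, Complex.norm_exp]
  apply Real.exp_le_exp.2
  have e : ((1 + ((y - t : ℝ) : ℂ) * I) ^ 2 / (2 * (H : ℂ) ^ 2)) =
      (((1 - (y - t) ^ 2) / (2 * H ^ 2) : ℝ) : ℂ) + (((y - t) / H ^ 2 : ℝ) : ℂ) * I := by
    have hHc : (H : ℂ) ≠ 0 := by exact_mod_cast hH0.ne'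
    have hI : I ^ 2 = -1 := Complex.I_sq
    push_cast
    field_simp
    linear_combination ((y : ℂ) - t) ^ 2 * hI
  have e' : ((1 + ((y - t : ℝ) : ℂ) * I) ^ 2 / (2 * (H : ℂ) ^ 2)).re =
      (1 - (y - t) ^ 2) / (2 * H ^ 2) := by
    rw [e, Complex.add_re, Complex.ofReal_re, Complex.re_ofReal_mul, Complex.I_re, mul_zero,
      add_zero]
  rw [e']
  rw [div_le_iff₀ (by positivity)]
  nlinarith [sq_nonneg (y - t)]

theorem GH_cont (H t : ℝ) : Continuous (fun y : ℝ => GH H t (((3 / 2 : ℝ) : ℂ) + y * I)) := by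
  unfold GH
  fun_prop

theorem w_int (H : ℝ) (hH : 1 ≤ H) : Integrable (fun u : ℝ =>
    ((H / Real.sqrt (2 * Real.pi) * Real.exp (-(H ^ 2 * u ^ 2) / 2) * Real.exp (-u) : ℝ) : ℂ)) := by
  have hH0 : 0 < H := by linarith
  have h := integrable_cexp_quadratic' (b := ((-(H ^ 2 / 2) : ℝ) : ℂ)) (by
    rw [Complex.ofReal_re]
    have : 0 < H ^ 2 / 2 := by positivity
    linarith) (-1) 0
  refine (h.const_mul ((H / Real.sqrt (2 * Real.pi) : ℝ) : ℂ)).congr (ae_of_all _ fun u => ?_)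
  show ((H / Real.sqrt (2 * Real.pi) : ℝ) : ℂ) * cexp (((-(H ^ 2 / 2) : ℝ) : ℂ) * (u : ℂ) ^ 2 +
    (-1) * (u : ℂ) + 0) =
    ((H / Real.sqrt (2 * Real.pi) * Real.exp (-(H ^ 2 * u ^ 2) / 2) * Real.exp (-u) : ℝ) : ℂ)
  rw [mul_assoc (H / Real.sqrt (2 * Real.pi)), ← Real.exp_add, Complex.ofReal_mul,
    Complex.ofReal_exp]
  congr 2
  push_cast
  ring

theorem rgt (h1 : GAMIStatement) (h2 : DX2Statement) : RGTStatement := by
  intro A B δ H t hδ hδ2 hH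
  have hH0 : 0 < H := by linarith
  set a : ℕ → ℂ := fun n => ((bn A B n : ℝ) : ℂ) with ha
  have hsum : Summable (fun n : ℕ => ‖a n‖ * (n : ℝ) ^ (-(3 / 2 : ℝ))) := by
    refine ((h2 A B).2.1 (3 / 2) (by norm_num)).congr fun n => ?_
    show |bn A B n| * (n : ℝ) ^ (-(3 / 2 : ℝ)) = ‖((bn A B n : ℝ) : ℂ)‖ * (n : ℝ) ^ (-(3 / 2 : ℝ))
    rw [Complex.norm_real, Real.norm_eq_abs]
  have hom : Integrable (fun y : ℝ => om0 δ (((3 / 2 : ℝ) : ℂ) + y * I)) := by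
    refine ((h1 (3 / 2) (zn 1 0 δ) (by norm_num) (zn_re 1 one_ne_zero 0 δ hδ hδ2)).1).congr
      (ae_of_all _ fun y => ?_)
    show Complex.Gamma (((3 / 2 : ℝ) : ℂ) + y * I) * zn 1 0 δ ^ (-(((3 / 2 : ℝ) : ℂ) + y * I)) = _
    rw [zn_cpow 1 one_ne_zero 0 δ hδ hδ2]
    simp
  -- the factor in `u`
  have hexp : ∀ u : ℝ, Integrable (fun y : ℝ => om0 δ (((3 / 2 : ℝ) : ℂ) + y * I) *
      Complex.exp (-(u * (((3 / 2 : ℝ) : ℂ) + y * I)))) := by
    intro u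
    have hc : Continuous (fun y : ℝ => Complex.exp (-(u * (((3 / 2 : ℝ) : ℂ) + y * I)))) := by
      fun_prop
    have hb : ∀ y : ℝ, ‖Complex.exp (-(u * (((3 / 2 : ℝ) : ℂ) + y * I)))‖ ≤
        Real.exp (-(u * (3 / 2))) := by
      intro y
      rw [Complex.norm_exp]
      apply le_of_eq
      congr 1
      simp
    refine (hom.bdd_mul hc.aestronglyMeasurable (ae_of_all _ hb)).congr (ae_of_all _ fun y => ?_)
    show _ * _ = _ * _
    ring
  have hg : Integrable (fun y : ℝ => om0 δ (((3 / 2 : ℝ) : ℂ) + y * I) *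
      GH H t (((3 / 2 : ℝ) : ℂ) + y * I)) := by
    refine (hom.bdd_mul (GH_cont H t).aestronglyMeasurable
      (ae_of_all _ fun y => GH_norm H t y hH)).congr (ae_of_all _ fun y => ?_)
    show _ * _ = _ * _
    ring
  refine ⟨?_, ?_⟩
  · refine (SWAP.swap (3 / 2) a (fun s => om0 δ s * GH H t s) hsum hg).1.congr
      (ae_of_all _ fun y => ?_)
    show _ * (_ * _) = _ * _ * _
    ring
  -- Fubini
  have hF : Integrable (fun y : ℝ => LSeries a (((3 / 2 : ℝ) : ℂ) + y * I) *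
      om0 δ (((3 / 2 : ℝ) : ℂ) + y * I)) := (SWAP.swap (3 / 2) a (fun s => om0 δ s) hsum hom).1
  set w : ℝ → ℝ := fun u => H / Real.sqrt (2 * Real.pi) * Real.exp (-(H ^ 2 * u ^ 2) / 2) with hw
  set K : ℝ → ℝ → ℂ := fun y u => (LSeries a (((3 / 2 : ℝ) : ℂ) + y * I) *
      om0 δ (((3 / 2 : ℝ) : ℂ) + y * I)) * ((w u : ℂ) *
        Complex.exp (-(u * ((((3 / 2 : ℝ) : ℂ) + y * I) - 1 / 2 - t * I)))) with hK
  have hKint : Integrable (Function.uncurry K) (volume.prod volume) := by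
    have hb := hF.mul_prod (w_int H hH)
    have hc : Continuous (fun z : ℝ × ℝ => Complex.exp (-(((z.2 * (z.1 - t) : ℝ) : ℂ) * I))) := by
      fun_prop
    have hn : ∀ z : ℝ × ℝ, ‖Complex.exp (-(((z.2 * (z.1 - t) : ℝ) : ℂ) * I))‖ ≤ 1 := by
      intro z
      rw [Complex.norm_exp]
      simp
    refine (hb.bdd_mul hc.aestronglyMeasurable (ae_of_all _ hn)).congr (ae_of_all _ fun z => ?_)
    show Complex.exp (-(((z.2 * (z.1 - t) : ℝ) : ℂ) * I)) *
      ((LSeries a (((3 / 2 : ℝ) : ℂ) + z.1 * I) * om0 δ (((3 / 2 : ℝ) : ℂ) + z.1 * I)) *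
      ((H / Real.sqrt (2 * Real.pi) * Real.exp (-(H ^ 2 * z.2 ^ 2) / 2) * Real.exp (-z.2) : ℝ) : ℂ))
      = (LSeries a (((3 / 2 : ℝ) : ℂ) + z.1 * I) *
      om0 δ (((3 / 2 : ℝ) : ℂ) + z.1 * I)) * ((w z.2 : ℂ) *
        Complex.exp (-(z.2 * ((((3 / 2 : ℝ) : ℂ) + z.1 * I) - 1 / 2 - t * I))))
    have e : Complex.exp (-(z.2 * ((((3 / 2 : ℝ) : ℂ) + z.1 * I) - 1 / 2 - t * I))) =
        Complex.exp (-(((z.2 * (z.1 - t) : ℝ) : ℂ) * I)) * ((Real.exp (-z.2) : ℝ) : ℂ) := by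
      rw [Complex.ofReal_exp, ← Complex.exp_add]
      congr 1
      push_cast
      ring
    rw [e, Complex.ofReal_mul (H / Real.sqrt (2 * Real.pi) * Real.exp (-(H ^ 2 * z.2 ^ 2) / 2))]
    ring
  have hL : ∀ y : ℝ, LSeries a (((3 / 2 : ℝ) : ℂ) + y * I) * om0 δ (((3 / 2 : ℝ) : ℂ) + y * I) *
      GH H t (((3 / 2 : ℝ) : ℂ) + y * I) = ∫ u : ℝ, K y u := by
    intro y
    show _ = ∫ u : ℝ, (LSeries a (((3 / 2 : ℝ) : ℂ) + y * I) *
      om0 δ (((3 / 2 : ℝ) : ℂ) + y * I)) * ((w u : ℂ) *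
        Complex.exp (-(u * ((((3 / 2 : ℝ) : ℂ) + y * I) - 1 / 2 - t * I))))
    rw [integral_const_mul]
    congr 1
    exact (gauss H t hH _).symm
  have hpi : (2 * Real.pi : ℂ) ≠ 0 := by
    exact_mod_cast (by positivity : (2 * Real.pi : ℝ) ≠ 0)
  have hR : ∀ u : ℝ, ∫ y : ℝ, K y u =
      (2 * Real.pi : ℂ) * (hu A B δ H u * Complex.exp (u * t * I)) := by
    intro u
    have e1 : (fun y : ℝ => K y u) = fun y : ℝ =>
        ((w u : ℂ) * Complex.exp (u / 2 + u * t * I)) *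
          (LSeries a (((3 / 2 : ℝ) : ℂ) + y * I) * (om0 δ (((3 / 2 : ℝ) : ℂ) + y * I) *
            Complex.exp (-(u * (((3 / 2 : ℝ) : ℂ) + y * I))))) := by
      funext y
      show (LSeries a (((3 / 2 : ℝ) : ℂ) + y * I) *
        om0 δ (((3 / 2 : ℝ) : ℂ) + y * I)) * ((w u : ℂ) *
        Complex.exp (-(u * ((((3 / 2 : ℝ) : ℂ) + y * I) - 1 / 2 - t * I)))) = _
      have e : Complex.exp (-(u * ((((3 / 2 : ℝ) : ℂ) + y * I) - 1 / 2 - t * I))) =
          Complex.exp (u / 2 + u * t * I) *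
            Complex.exp (-(u * (((3 / 2 : ℝ) : ℂ) + y * I))) := by
        rw [← Complex.exp_add]
        congr 1
        ring
      rw [e]
      ring
    have hs := (SWAP.swap (3 / 2) a (fun s => om0 δ s * Complex.exp (-(u * s))) hsum (hexp u)).2.2
    have hE : (∑' n : ℕ, if n = 0 then 0 else
        a n * VI (3 / 2) (fun s => (om0 δ s * Complex.exp (-(u * s))) * (n : ℂ) ^ (-s))) =
        EE A B (zp u δ) := by
      unfold EE
      refine tsum_congr fun n => ?_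
      by_cases hn : n = 0
      · subst hn
        simp [bn]
      · rw [if_neg hn]
        congr 1
        rw [exp_zp]
        rw [(h1 (3 / 2) (zn n u δ) (by norm_num) (zn_re n hn u δ hδ hδ2)).2]
        congr 1
        funext s
        exact (zn_cpow n hn u δ hδ hδ2 s).symm
    rw [e1, integral_const_mul]
    have hI : ∫ y : ℝ, (LSeries a (((3 / 2 : ℝ) : ℂ) + y * I) *
        (om0 δ (((3 / 2 : ℝ) : ℂ) + y * I) *
            Complex.exp (-(u * (((3 / 2 : ℝ) : ℂ) + y * I))))) =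
        (2 * Real.pi : ℂ) * EE A B (zp u δ) := by
      rw [← hE, ← hs]
      unfold VI
      rw [← mul_assoc, mul_one_div_cancel hpi, one_mul]
    rw [hI]
    unfold hu
    have e2 : ((H / Real.sqrt (2 * Real.pi) * Real.exp (-(H ^ 2 * u ^ 2) / 2 + u / 2) : ℝ) : ℂ) =
        (w u : ℂ) * Complex.exp (u / 2) := by
      rw [Real.exp_add, ← mul_assoc, Complex.ofReal_mul]
      congr 1
      rw [Complex.ofReal_exp]
      congr 1
      push_cast
      ring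
    rw [e2, Complex.exp_add]
    ring
  unfold VI SE
  have hfin : (∫ y : ℝ, (fun s => LSeries a s * om0 δ s * GH H t s)
      (((3 / 2 : ℝ) : ℂ) + y * I)) =
      (2 * Real.pi : ℂ) * ∫ u : ℝ, hu A B δ H u * Complex.exp (u * t * I) := by
    rw [← integral_const_mul]
    calc (∫ y : ℝ, (fun s => LSeries a s * om0 δ s * GH H t s) (((3 / 2 : ℝ) : ℂ) + y * I))
        = ∫ y : ℝ, ∫ u : ℝ, K y u := integral_congr_ae (ae_of_all _ hL)
      _ = ∫ u : ℝ, ∫ y : ℝ, K y u := integral_integral_swap hKint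
      _ = _ := integral_congr_ae (ae_of_all _ hR)
  rw [hfin, ← mul_assoc, one_div_mul_cancel hpi, one_mul]

end Pool.Agent.Lib.MP_6bc78b_nt.GP.H69
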