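import Pool.Agent.Lib.MP_6bc78b_nt.GP.H3.Defs8
import Pool.Agent.Lib.MP_6bc78b_nt.GP.H62.Lowx

/-! Project GP8 (MP_6bc78b_nt), helper69: row SML8, small `t`. -/

set_option autoImplicit false

open Complex Filter Topology MeasureTheory ArithmeticFunction Set
open scoped ENNReal

namespace Pool.Agent.Lib.MP_6bc78b_nt.GP.H69

open Pool.Agent.Lib.MP_6bc78b_nt.GP.G7 Pool.Agent.Lib.MP_6bc78b_nt.GP.G8

/-- The mean value theorem for the sum of `f(m) m^{-(1+it)}` over any interval. -/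
theorem f_mean (hB : BASXStatement) {C : ℝ} (hC : 0 < C)
    (hM : ∀ (N : ℕ) (c : ℕ → ℂ) (b : ℝ), 0 < b → b ≤ 1 →
      ∫⁻ t : ℝ, ENNReal.ofReal (‖DP c N t‖ ^ 2 * Real.exp (-(b * |t|))) ≤
        ENNReal.ofReal (C * ∑ n ∈ Finset.Icc 1 N, (1 / b + n) * ‖c n‖ ^ 2 / (n : ℝ) ^ 2))
    {η T u A₁ A₂ : ℝ} (hη : 0 < η) (hT : 3 ≤ T) (hu : 0 < u) (hu1 : u ≤ 1)
    (h1 : 2 ≤ A₁) (h12 : A₁ ≤ A₂) (h2 : A₂ ≤ T ^ 2) :
    ∫⁻ t : ℝ, ENNReal.ofReal (‖∑ m ∈ Finset.Ioc ⌊A₁⌋₊ ⌊A₂⌋₊,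
        (ff η T m : ℂ) * (m : ℂ) ^ (-(1 + t * I : ℂ))‖ ^ 2 * Real.exp (-(u * |t|))) ≤
      ENNReal.ofReal (C * (16 * Real.log T ^ 4 *
        (2 / (u * A₁) + Real.log (2 * A₂ / A₁)))) := by
  set c : ℕ → ℂ := fun n => if n ∈ Finset.Ioc ⌊A₁⌋₊ ⌊A₂⌋₊ then (ff η T n : ℂ) else 0 with hc
  have hDP : ∀ t : ℝ, ∑ m ∈ Finset.Ioc ⌊A₁⌋₊ ⌊A₂⌋₊,
      (ff η T m : ℂ) * (m : ℂ) ^ (-(1 + t * I : ℂ)) = DP c ⌊A₂⌋₊ t := by
    intro t
    unfold DP
    have hsub : Finset.Ioc ⌊A₁⌋₊ ⌊A₂⌋₊ ⊆ Finset.Icc 1 ⌊A₂⌋₊ := by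
      intro n hn
      rw [Finset.mem_Ioc] at hn
      rw [Finset.mem_Icc]
      exact ⟨by omega, hn.2⟩
    rw [← Finset.sum_subset hsub (f := fun n => c n * (n : ℂ) ^ (-(1 + t * I : ℂ)))]
    · refine Finset.sum_congr rfl fun n hn => ?_
      show _ = (if n ∈ Finset.Ioc ⌊A₁⌋₊ ⌊A₂⌋₊ then (ff η T n : ℂ) else 0) * _
      rw [if_pos hn]
    · intro n _ hn
      show (if n ∈ Finset.Ioc ⌊A₁⌋₊ ⌊A₂⌋₊ then (ff η T n : ℂ) else 0) * _ = 0
      rw [if_neg hn, zero_mul]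
  simp_rw [hDP]
  refine (hM ⌊A₂⌋₊ c u hu hu1).trans (ENNReal.ofReal_le_ofReal ?_)
  refine mul_le_mul_of_nonneg_left ?_ hC.le
  set a := ⌊A₁⌋₊ with ha
  set b := ⌊A₂⌋₊ with hb
  have hM1 : 0 < A₁ := by linarith
  have hM2 : 0 < A₂ := by linarith
  have ha2 : 2 ≤ a := Nat.le_floor (by exact_mod_cast h1)
  have hab : a ≤ b := Nat.floor_le_floor h12
  have ha3 : A₁ / 2 ≤ a := by
    have := Nat.lt_floor_add_one A₁
    have h3 : (2 : ℝ) ≤ a := by exact_mod_cast ha2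
    rw [← ha] at this
    linarith
  have hb3 : (b : ℝ) ≤ A₂ := Nat.floor_le hM2.le
  have hT0 : 0 < T := by linarith
  have hL : 0 ≤ Real.log T := Real.log_nonneg (by linarith)
  have hsub : Finset.Ioc a b ⊆ Finset.Icc 1 b := by
    intro n hn
    rw [Finset.mem_Ioc] at hn
    rw [Finset.mem_Icc]
    exact ⟨by omega, hn.2⟩
  have e1 : ∑ n ∈ Finset.Icc 1 b, (1 / u + n) * ‖c n‖ ^ 2 / (n : ℝ) ^ 2 =
      ∑ n ∈ Finset.Ioc a b, (1 / u + n) * ‖c n‖ ^ 2 / (n : ℝ) ^ 2 := by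
    refine (Finset.sum_subset hsub fun n _ hn => ?_).symm
    have : c n = 0 := by
      show (if n ∈ Finset.Ioc a b then (ff η T n : ℂ) else 0) = 0
      rw [if_neg hn]
    rw [this]
    simp
  rw [e1]
  have e2 : ∀ n ∈ Finset.Ioc a b, (1 / u + n) * ‖c n‖ ^ 2 / (n : ℝ) ^ 2 ≤
      16 * Real.log T ^ 4 * ((1 / u + n) / (n : ℝ) ^ 2) := by
    intro n hn
    have hn' := hn
    rw [Finset.mem_Ioc] at hn'
    have hn0 : (0 : ℝ) < n := by exact_mod_cast (by omega : 0 < n)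
    have hn1 : (1 : ℝ) ≤ n := by exact_mod_cast (by omega : 1 ≤ n)
    have hnT : (n : ℝ) ≤ T ^ 2 := by
      have : (n : ℝ) ≤ b := by exact_mod_cast hn'.2
      linarith
    have hcn : ‖c n‖ ≤ 4 * Real.log T ^ 2 := by
      show ‖(if n ∈ Finset.Ioc a b then (ff η T n : ℂ) else 0)‖ ≤ _
      rw [if_pos hn, Complex.norm_real, Real.norm_eq_abs]
      have h3 := hB.2.2.1 η T n hT hη
      have h4 := hB.2.1 n
      rw [abs_of_nonneg h3.1]
      have h5 : Real.log n ≤ 2 * Real.log T := by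
        have := Real.log_le_log hn0 hnT
        rw [Real.log_pow] at this
        exact_mod_cast this
      have h6 : 0 ≤ Real.log n := Real.log_nonneg hn1
      nlinarith [h3.2, h4.2]
    have h7 : ‖c n‖ ^ 2 ≤ 16 * Real.log T ^ 4 := by
      have := pow_le_pow_left₀ (norm_nonneg _) hcn 2
      calc _ ≤ (4 * Real.log T ^ 2) ^ 2 := this
        _ = 16 * Real.log T ^ 4 := by ring
    have h8 : 0 ≤ (1 / u + n) / (n : ℝ) ^ 2 := by positivity
    calc (1 / u + n) * ‖c n‖ ^ 2 / (n : ℝ) ^ 2 =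
        ‖c n‖ ^ 2 * ((1 / u + n) / (n : ℝ) ^ 2) := by ring
      _ ≤ _ := mul_le_mul_of_nonneg_right h7 h8
  refine (Finset.sum_le_sum e2).trans ?_
  rw [← Finset.mul_sum]
  refine mul_le_mul_of_nonneg_left ?_ (by positivity)
  refine (sum_block_le (by omega) hab hu).trans ?_
  have ha0 : (0 : ℝ) < a := by exact_mod_cast (by omega : 0 < a)
  have hb0 : (0 : ℝ) < b := by exact_mod_cast (by omega : 0 < b)
  have h9 : 1 / (u * a) ≤ 2 / (u * A₁) := by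
    rw [div_le_div_iff₀ (by positivity) (by positivity)]
    nlinarith [mul_le_mul_of_nonneg_left ha3 hu.le]
  have h10 : Real.log b - Real.log a ≤ Real.log (2 * A₂ / A₁) := by
    rw [← Real.log_div hb0.ne' ha0.ne']
    refine Real.log_le_log (by positivity) ?_
    rw [div_le_div_iff₀ ha0 hM1]
    have h11 : (b : ℝ) * A₁ ≤ A₂ * A₁ :=
      mul_le_mul_of_nonneg_right hb3 hM1.le
    have h12' : A₂ * A₁ ≤ 2 * A₂ * a := by nlinarith
    linarith
  linarith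

/-- SML8. -/
theorem sml8 (hMV : MVTXStatement) (hB : BASXStatement) : SML8Statement := by
  intro a b ε η δ ha hab hε hε1 hη hη1 hδ
  obtain ⟨C, hC, hM⟩ := hMV
  have hb : 0 < b := ha.trans hab
  have hlog0 : 0 ≤ Real.log (2 / ε ^ 2) := by
    refine Real.log_nonneg ?_
    rw [le_div_iff₀ (by positivity)]
    nlinarith
  have e1 : ∀ᶠ T : ℝ in atTop, 2 / ε ≤ T := eventually_ge_atTop _
  have e3 := ev_log_pow 6 1 (by norm_num)
  have e5 : ∀ᶠ T : ℝ in atTop,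
      64 * b * Real.exp 1 * C * (2 / ε + Real.log (2 / ε ^ 2)) / δ + 3 ≤ Real.log T :=
    Real.tendsto_log_atTop.eventually_ge_atTop _
  obtain ⟨T0, h0⟩ := eventually_atTop.1 (e1.and (e3.and e5))
  refine ⟨max T0 11, lt_max_of_lt_right (by norm_num), ?_⟩
  intro T h hT hh1 hh
  obtain ⟨c1, c3, c5⟩ := h0 T ((le_max_left _ _).trans hT)
  have hT11 : 11 ≤ T := (le_max_right _ _).trans hT
  have hT0 : 0 < T := by linarith
  rw [one_mul] at c3
  set L := Real.log T with hL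
  have hL3 : 3 ≤ L := by
    have : 0 ≤ 64 * b * Real.exp 1 * C * (2 / ε + Real.log (2 / ε ^ 2)) / δ := by positivity
    linarith
  have hL0 : 0 < L := by linarith
  have hh0 : 0 < h := by linarith
  have hN1 : 2 ≤ ε * T := by
    rw [div_le_iff₀ hε] at c1
    linarith
  have hN12 : ε * T ≤ T / ε := by
    rw [le_div_iff₀ hε]
    nlinarith
  have hN2 : T / ε ≤ T ^ 2 := by
    have h1 : 1 / ε ≤ T := by
      refine le_trans ?_ c1
      rw [div_le_div_iff_of_pos_right hε]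
      norm_num
    calc T / ε = T * (1 / ε) := by ring
      _ ≤ T * T := mul_le_mul_of_nonneg_left h1 hT0.le
      _ = T ^ 2 := by ring
  set S1 : Set ℝ := {t : ℝ | |t| ≤ T / L ^ 6} with hS1
  have mS1 : MeasurableSet S1 := (isClosed_le continuous_abs continuous_const).measurableSet
  have hu : 0 < L ^ 6 / T := by positivity
  have hu1 : L ^ 6 / T ≤ 1 := by rw [div_le_one hT0]; exact c3
  have hmv := f_mean hB hC hM (η := η) (T := T) hη (by linarith) hu hu1 hN1 hN12 hN2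
  have hpt : ∀ t ∈ S1, ENNReal.ofReal (‖Dp ε η T t‖ ^ 2 * rho a b T (L ^ 2) h t) ≤
      ENNReal.ofReal (4 * b / L ^ 4 * Real.exp 1) *
        ENNReal.ofReal (‖∑ m ∈ Finset.Ioc ⌊ε * T⌋₊ ⌊T / ε⌋₊,
          (ff η T m : ℂ) * (m : ℂ) ^ (-(1 + t * I : ℂ))‖ ^ 2 *
          Real.exp (-(L ^ 6 / T * |t|))) := by
    intro t ht
    have ht' : |t| ≤ T / L ^ 6 := ht
    rw [← ENNReal.ofReal_mul (by positivity)]
    refine ENNReal.ofReal_le_ofReal ?_
    show ‖Dp ε η T t‖ ^ 2 * rho a b T (L ^ 2) h t ≤ 4 * b / L ^ 4 * Real.exp 1 *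
      (‖Dp ε η T t‖ ^ 2 * Real.exp (-(L ^ 6 / T * |t|)))
    have h2 : rho a b T (L ^ 2) h t ≤ 4 * b / L ^ 4 := by
      unfold rho
      have h3 : (1 + |t|) * (2 * b * L ^ 2 / T) ≤ 4 * b / L ^ 4 := by
        have h4 : 1 + |t| ≤ 2 * (T / L ^ 6) := by
          have : 1 ≤ T / L ^ 6 := by rw [le_div_iff₀ (by positivity)]; linarith
          linarith
        calc (1 + |t|) * (2 * b * L ^ 2 / T) ≤ 2 * (T / L ^ 6) * (2 * b * L ^ 2 / T) :=
              mul_le_mul_of_nonneg_right h4 (by positivity)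
          _ = 4 * b / L ^ 4 := by field_simp; ring
      have h5 : Real.exp (-(a * h / T * |t|)) ≤ 1 := by
        rw [Real.exp_le_one_iff]
        have : 0 ≤ a * h / T * |t| := by positivity
        linarith
      have h6 : 0 ≤ (1 + |t|) * (2 * b * L ^ 2 / T) := by positivity
      calc min 1 ((1 + |t|) * (2 * b * L ^ 2 / T)) * Real.exp (-(a * h / T * |t|)) ≤
          ((1 + |t|) * (2 * b * L ^ 2 / T)) * 1 :=
            mul_le_mul (min_le_right _ _) h5 (Real.exp_pos _).le h6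
        _ ≤ _ := by rw [mul_one]; exact h3
    have h7 : 1 ≤ Real.exp 1 * Real.exp (-(L ^ 6 / T * |t|)) := by
      rw [← Real.exp_add, Real.one_le_exp_iff]
      have : L ^ 6 / T * |t| ≤ L ^ 6 / T * (T / L ^ 6) :=
        mul_le_mul_of_nonneg_left ht' hu.le
      have h8 : L ^ 6 / T * (T / L ^ 6) = 1 := by field_simp
      linarith
    calc ‖Dp ε η T t‖ ^ 2 * rho a b T (L ^ 2) h t
        ≤ ‖Dp ε η T t‖ ^ 2 * (4 * b / L ^ 4) :=
          mul_le_mul_of_nonneg_left h2 (by positivity)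
      _ = ‖Dp ε η T t‖ ^ 2 * (4 * b / L ^ 4) * 1 := by ring
      _ ≤ ‖Dp ε η T t‖ ^ 2 * (4 * b / L ^ 4) *
          (Real.exp 1 * Real.exp (-(L ^ 6 / T * |t|))) :=
          mul_le_mul_of_nonneg_left h7 (by positivity)
      _ = _ := by ring
  refine (lintegral_set_le mS1 hpt).trans ?_
  rw [lintegral_const_mul' _ _ ENNReal.ofReal_ne_top]
  refine (mul_le_mul_right hmv _).trans ?_
  rw [← ENNReal.ofReal_mul (by positivity)]
  refine ENNReal.ofReal_le_ofReal ?_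
  have h10 : 2 / (L ^ 6 / T * (ε * T)) ≤ 2 / ε := by
    have h11 : L ^ 6 / T * (ε * T) = ε * L ^ 6 := by field_simp
    rw [h11]
    refine div_le_div_of_nonneg_left (by norm_num) hε ?_
    have h12 : (1 : ℝ) ≤ L ^ 6 := one_le_pow₀ (by linarith)
    nlinarith
  have h13 : Real.log (2 * (T / ε) / (ε * T)) = Real.log (2 / ε ^ 2) := by
    congr 1
    field_simp
  rw [h13]
  have h21 : 64 * b * Real.exp 1 * C * (2 / ε + Real.log (2 / ε ^ 2)) ≤ δ * L ^ 4 := by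
    have h22 : 64 * b * Real.exp 1 * C * (2 / ε + Real.log (2 / ε ^ 2)) / δ ≤ L := by linarith
    rw [div_le_iff₀ hδ] at h22
    have h24 : L ≤ L ^ 4 := by
      calc L = L ^ 1 := (pow_one _).symm
        _ ≤ L ^ 4 := pow_le_pow_right₀ (by linarith) (by norm_num)
    have h25 := mul_le_mul_of_nonneg_left h24 hδ.le
    linarith
  calc 4 * b / L ^ 4 * Real.exp 1 * (C * (16 * L ^ 4 *
        (2 / (L ^ 6 / T * (ε * T)) + Real.log (2 / ε ^ 2))))
      ≤ 4 * b / L ^ 4 * Real.exp 1 * (C * (16 * L ^ 4 *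
        (2 / ε + Real.log (2 / ε ^ 2)))) := by
        gcongr
    _ = 64 * b * Real.exp 1 * C * (2 / ε + Real.log (2 / ε ^ 2)) := by field_simp; ring
    _ ≤ δ * L ^ 4 := h21

end Pool.Agent.Lib.MP_6bc78b_nt.GP.H69
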