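import Pool.Agent.Lib.MP_6bc78b_nt.GP.H62.Defs7

/-! # Row MVTX of GP7: a mean value theorem for Dirichlet polynomials with the weight `e^(-b|t|)` -/

set_option autoImplicit false

open Complex MeasureTheory Set Filter Topology

namespace Pool.Agent.Lib.MP_6bc78b_nt.GP.H69

/-- the kernel -/
noncomputable def ker (b v : ℝ) : ℝ := 2 * b / (b ^ 2 + v ^ 2)

lemma ker_nonneg {b : ℝ} (hb : 0 < b) (v : ℝ) : 0 ≤ ker b v := by
  unfold ker
  positivity

lemma ker_neg (b v : ℝ) : ker b (-v) = ker b v := by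
  unfold ker
  rw [neg_sq]

lemma int_Ioi {b : ℝ} (hb : 0 < b) (v : ℝ) :
    IntegrableOn (fun t : ℝ => Complex.exp (((-b : ℝ) + v * I) * t)) (Ioi 0) ∧
      ∫ t in Ioi (0 : ℝ), Complex.exp (((-b : ℝ) + v * I) * t) = 1 / (b - v * I) := by
  have hre : (((-b : ℝ) : ℂ) + v * I).re < 0 := by simp [hb]
  refine ⟨integrableOn_exp_mul_complex_Ioi hre 0, ?_⟩
  rw [integral_exp_mul_complex_Ioi hre 0]
  have h0 : ((b : ℂ) - v * I) ≠ 0 := fun h => by
    have := congrArg Complex.re h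
    simp at this
    exact hb.ne' this
  have h1 : (((-b : ℝ) : ℂ) + v * I) = -((b : ℂ) - v * I) := by push_cast; ring
  rw [h1, Complex.ofReal_zero, mul_zero, Complex.exp_zero, neg_div_neg_eq]

lemma int_Iic {b : ℝ} (hb : 0 < b) (v : ℝ) :
    IntegrableOn (fun t : ℝ => Complex.exp (((b : ℝ) + v * I) * t)) (Iic 0) ∧
      ∫ t in Iic (0 : ℝ), Complex.exp (((b : ℝ) + v * I) * t) = 1 / (b + v * I) := by
  have hre : 0 < (((b : ℝ) : ℂ) + v * I).re := by simp [hb]
  refine ⟨integrableOn_exp_mul_complex_Iic hre 0, ?_⟩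
  rw [integral_exp_mul_complex_Iic hre 0]
  simp

/-- The Fourier transform of `e^(-b|t|)`. -/
lemma four {b : ℝ} (hb : 0 < b) (v : ℝ) :
    Integrable (fun t : ℝ => Complex.exp (v * t * I) * Real.exp (-(b * |t|))) ∧
      ∫ t : ℝ, Complex.exp (v * t * I) * Real.exp (-(b * |t|)) = ker b v := by
  have e1 : EqOn (fun t : ℝ => Complex.exp (v * t * I) * Real.exp (-(b * |t|)))
      (fun t : ℝ => Complex.exp (((-b : ℝ) + v * I) * t)) (Ioi 0) := by
    intro t ht
    have ht' : 0 < t := ht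
    simp only
    rw [abs_of_pos ht', Complex.ofReal_exp, ← Complex.exp_add]
    congr 1
    push_cast
    ring
  have e2 : EqOn (fun t : ℝ => Complex.exp (v * t * I) * Real.exp (-(b * |t|)))
      (fun t : ℝ => Complex.exp (((b : ℝ) + v * I) * t)) (Iic 0) := by
    intro t ht
    have ht' : t ≤ 0 := ht
    simp only
    rw [abs_of_nonpos ht', Complex.ofReal_exp, ← Complex.exp_add]
    congr 1
    push_cast
    ring
  obtain ⟨i1, h1⟩ := int_Ioi hb v
  obtain ⟨i2, h2⟩ := int_Iic hb v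
  have j1 := (integrableOn_congr_fun e1 measurableSet_Ioi).2 i1
  have j2 := (integrableOn_congr_fun e2 measurableSet_Iic).2 i2
  refine ⟨by
    have := j2.union j1
    rwa [Iic_union_Ioi, integrableOn_univ] at this, ?_⟩
  rw [← intervalIntegral.integral_Iic_add_Ioi j2 j1, setIntegral_congr_fun measurableSet_Ioi e1,
    setIntegral_congr_fun measurableSet_Iic e2, h1, h2]
  have h3 : ((b : ℂ) - v * I) ≠ 0 := fun h => by
    have := congrArg Complex.re h
    simp at this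
    exact hb.ne' this
  have h4 : ((b : ℂ) + v * I) ≠ 0 := fun h => by
    have := congrArg Complex.re h
    simp at this
    exact hb.ne' this
  have h5 : ((b : ℂ) ^ 2 + (v : ℂ) ^ 2) = (b + v * I) * (b - v * I) := by
    linear_combination (v : ℂ) ^ 2 * I_sq
  rw [ker]
  push_cast
  rw [h5, div_add_div _ _ h4 h3]
  congr 1
  ring

/-! ## The sum of the kernel -/

/-- the primitive of the kernel -/
noncomputable def pri (b v : ℝ) : ℝ := 2 * Real.arctan (v / b)

lemma pri_deriv {b : ℝ} (hb : 0 < b) (v : ℝ) : HasDerivAt (pri b) (ker b v) v := by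
  have h1 : HasDerivAt (fun v : ℝ => v / b) (1 / b) v := (hasDerivAt_id v).div_const b
  have h2 := (h1.arctan).const_mul 2
  have h3 : 2 * (1 / (1 + (v / b) ^ 2) * (1 / b)) = ker b v := by
    unfold ker
    have : b ^ 2 + v ^ 2 ≠ 0 := by positivity
    have h4 : 1 + (v / b) ^ 2 = (b ^ 2 + v ^ 2) / b ^ 2 := by
      field_simp
    rw [h4]
    field_simp
  rw [h3] at h2
  exact h2

lemma pri_le (b v : ℝ) : pri b v ≤ Real.pi := by
  have := Real.arctan_lt_pi_div_two (v / b)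
  unfold pri
  linarith

lemma pri_ge (b v : ℝ) : -Real.pi ≤ pri b v := by
  have := Real.neg_pi_div_two_lt_arctan (v / b)
  unfold pri
  linarith

lemma pri_mono {b : ℝ} (hb : 0 < b) : Monotone (pri b) := by
  intro u v h
  unfold pri
  have : Real.arctan (u / b) ≤ Real.arctan (v / b) :=
    Real.arctan_strictMono.monotone (div_le_div_of_nonneg_right h hb.le)
  linarith

lemma ker_anti {b : ℝ} (hb : 0 < b) {u v : ℝ} (hu : 0 ≤ u) (h : u ≤ v) : ker b v ≤ ker b u := by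
  unfold ker
  have : u ^ 2 ≤ v ^ 2 := pow_le_pow_left₀ hu h 2
  gcongr

/-- right of zero -/
lemma pri_right {b : ℝ} (hb : 0 < b) {u v : ℝ} (hu : 0 ≤ u) (h : u ≤ v) :
    ker b v * (v - u) ≤ pri b v - pri b u := by
  rcases h.eq_or_lt with rfl | h
  · simp
  obtain ⟨c, hc, e⟩ := exists_hasDerivAt_eq_slope (pri b) (ker b) h
    (fun x _ => (pri_deriv hb x).continuousAt.continuousWithinAt) (fun x _ => pri_deriv hb x)
  have h1 : 0 < v - u := sub_pos.2 h
  have h2 : pri b v - pri b u = ker b c * (v - u) := by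
    rw [e, div_mul_cancel₀ _ h1.ne']
  rw [h2]
  exact mul_le_mul_of_nonneg_right (ker_anti hb (hu.trans hc.1.le) hc.2.le) h1.le

/-- left of zero -/
lemma pri_left {b : ℝ} (hb : 0 < b) {u v : ℝ} (hv : v ≤ 0) (h : u ≤ v) :
    ker b u * (v - u) ≤ pri b v - pri b u := by
  have h1 := pri_right hb (u := -v) (v := -u) (by linarith) (by linarith)
  have h2 : ∀ x, pri b (-x) = -pri b x := fun x => by
    unfold pri
    rw [neg_div, Real.arctan_neg]
    ring
  rw [h2, h2, ker_neg] at h1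
  linarith

lemma term_le {b : ℝ} (hb : 0 < b) {n : ℕ} (hn : 1 ≤ n) (i : ℕ) :
    ker b (Real.log (i + 1 : ℕ) - Real.log n) / ((i + 1 : ℕ) : ℝ) ≤
      (pri b (Real.log (i + 1 : ℕ) - Real.log n) - pri b (Real.log (i : ℕ) - Real.log n)) +
      2 * (pri b (Real.log (i + 1 + 1 : ℕ) - Real.log n) -
        pri b (Real.log (i + 1 : ℕ) - Real.log n)) +
      (if i + 1 = n then 2 / (b * n) else 0) := by
  have hm : (0 : ℝ) < ((i + 1 : ℕ) : ℝ) := by positivity
  have hn0 : (0 : ℝ) < n := by exact_mod_cast hn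
  have hA : 0 ≤ pri b (Real.log (i + 1 : ℕ) - Real.log n) -
      pri b (Real.log (i : ℕ) - Real.log n) := by
    refine sub_nonneg.2 (pri_mono hb (sub_le_sub_right ?_ _))
    rcases Nat.eq_zero_or_pos i with rfl | hi
    · simp
    · exact Real.log_le_log (by exact_mod_cast hi) (by push_cast; linarith)
  have hB : 0 ≤ pri b (Real.log (i + 1 + 1 : ℕ) - Real.log n) -
      pri b (Real.log (i + 1 : ℕ) - Real.log n) := by
    refine sub_nonneg.2 (pri_mono hb (sub_le_sub_right ?_ _))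
    exact Real.log_le_log hm (by push_cast; linarith)
  rcases lt_trichotomy (i + 1) n with h | h | h
  · -- left
    have h1 : Real.log (i + 1 + 1 : ℕ) - Real.log n ≤ 0 := by
      refine sub_nonpos.2 (Real.log_le_log (by positivity) ?_)
      exact_mod_cast h
    have h2 : Real.log (i + 1 : ℕ) ≤ Real.log (i + 1 + 1 : ℕ) :=
      Real.log_le_log hm (by push_cast; linarith)
    have h3 := pri_left hb h1 (sub_le_sub_right h2 (Real.log n))
    have h4 : 1 / ((i + 1 : ℕ) : ℝ) ≤ 2 * (Real.log (i + 1 + 1 : ℕ) - Real.log (i + 1 : ℕ)) := by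
      rw [← Real.log_div (by positivity) (by positivity)]
      have h5 := Real.one_sub_inv_le_log_of_pos (x := ((i + 1 + 1 : ℕ) : ℝ) / ((i + 1 : ℕ) : ℝ))
        (by positivity)
      have h6 : 1 - (((i + 1 + 1 : ℕ) : ℝ) / ((i + 1 : ℕ) : ℝ))⁻¹ =
          1 / ((i + 1 + 1 : ℕ) : ℝ) := by
        field_simp
        push_cast
        ring
      rw [h6] at h5
      have h7 : 1 / ((i + 1 : ℕ) : ℝ) ≤ 2 * (1 / ((i + 1 + 1 : ℕ) : ℝ)) := by
        rw [mul_one_div, div_le_div_iff₀ hm (by positivity)]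
        push_cast
        have : (0 : ℝ) ≤ i := Nat.cast_nonneg i
        linarith
      linarith
    rw [if_neg h.ne, add_zero]
    have h8 : ker b (Real.log (i + 1 : ℕ) - Real.log n) / ((i + 1 : ℕ) : ℝ) ≤
        ker b (Real.log (i + 1 : ℕ) - Real.log n) *
          (2 * (Real.log (i + 1 + 1 : ℕ) - Real.log (i + 1 : ℕ))) := by
      rw [div_eq_mul_one_div]
      exact mul_le_mul_of_nonneg_left h4 (ker_nonneg hb _)
    have h9 : Real.log (i + 1 + 1 : ℕ) - Real.log n - (Real.log (i + 1 : ℕ) - Real.log n) =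
        Real.log (i + 1 + 1 : ℕ) - Real.log (i + 1 : ℕ) := by ring
    rw [h9] at h3
    nlinarith
  · -- the diagonal
    rw [if_pos h, h, sub_self]
    have h1 : ker b 0 / (n : ℝ) = 2 / (b * n) := by
      unfold ker
      field_simp
      ring
    rw [h1]
    rw [h, sub_self] at hA hB
    linarith
  · -- right
    have hi : 1 ≤ i := by omega
    have hi0 : (0 : ℝ) < (i : ℕ) := by exact_mod_cast hi
    have h1 : 0 ≤ Real.log (i : ℕ) - Real.log n := by
      refine sub_nonneg.2 (Real.log_le_log hn0 ?_)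
      have : n ≤ i := by omega
      exact_mod_cast this
    have h2 : Real.log (i : ℕ) ≤ Real.log (i + 1 : ℕ) :=
      Real.log_le_log hi0 (by push_cast; linarith)
    have h3 := pri_right hb h1 (sub_le_sub_right h2 (Real.log n))
    have h4 : 1 / ((i + 1 : ℕ) : ℝ) ≤ Real.log (i + 1 : ℕ) - Real.log (i : ℕ) := by
      rw [← Real.log_div (by positivity) (by positivity)]
      have h5 := Real.one_sub_inv_le_log_of_pos (x := ((i + 1 : ℕ) : ℝ) / ((i : ℕ) : ℝ))
        (by positivity)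
      have h6 : 1 - (((i + 1 : ℕ) : ℝ) / ((i : ℕ) : ℝ))⁻¹ = 1 / ((i + 1 : ℕ) : ℝ) := by
        field_simp
        push_cast
        ring
      rwa [h6] at h5
    rw [if_neg h.ne', add_zero]
    have h8 : ker b (Real.log (i + 1 : ℕ) - Real.log n) / ((i + 1 : ℕ) : ℝ) ≤
        ker b (Real.log (i + 1 : ℕ) - Real.log n) *
          (Real.log (i + 1 : ℕ) - Real.log (i : ℕ)) := by
      rw [div_eq_mul_one_div]
      exact mul_le_mul_of_nonneg_left h4 (ker_nonneg hb _)
    have h9 : Real.log (i + 1 : ℕ) - Real.log n - (Real.log (i : ℕ) - Real.log n) =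
        Real.log (i + 1 : ℕ) - Real.log (i : ℕ) := by ring
    rw [h9] at h3
    linarith

lemma row {b : ℝ} (hb : 0 < b) {n : ℕ} (hn : 1 ≤ n) (N : ℕ) :
    ∑ i ∈ Finset.range N, ker b (Real.log (i + 1 : ℕ) - Real.log n) / ((i + 1 : ℕ) : ℝ) ≤
      6 * Real.pi + 2 / (b * n) := by
  refine (Finset.sum_le_sum fun i _ => term_le hb hn i).trans ?_
  rw [Finset.sum_add_distrib, Finset.sum_add_distrib, ← Finset.mul_sum]
  have h1 : ∑ i ∈ Finset.range N, (pri b (Real.log (i + 1 : ℕ) - Real.log n) -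
      pri b (Real.log (i : ℕ) - Real.log n)) =
      pri b (Real.log (N : ℕ) - Real.log n) - pri b (Real.log (0 : ℕ) - Real.log n) :=
    Finset.sum_range_sub (fun i : ℕ => pri b (Real.log (i : ℕ) - Real.log n)) N
  have h2 : ∑ i ∈ Finset.range N, (pri b (Real.log (i + 1 + 1 : ℕ) - Real.log n) -
      pri b (Real.log (i + 1 : ℕ) - Real.log n)) =
      pri b (Real.log (N + 1 : ℕ) - Real.log n) - pri b (Real.log (0 + 1 : ℕ) - Real.log n) :=
    Finset.sum_range_sub (fun i : ℕ => pri b (Real.log (i + 1 : ℕ) - Real.log n)) N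
  rw [h1, h2]
  have h3 : ∑ i ∈ Finset.range N, (if i + 1 = n then 2 / (b * n) else 0) ≤ 2 / (b * n) := by
    obtain ⟨k, rfl⟩ : ∃ k, n = k + 1 := ⟨n - 1, by omega⟩
    simp only [add_left_inj]
    rw [Finset.sum_ite_eq']
    split_ifs
    · exact le_rfl
    · positivity
  have e1 := pri_le b (Real.log (N : ℕ) - Real.log n)
  have e2 := pri_ge b (Real.log (0 : ℕ) - Real.log n)
  have e3 := pri_le b (Real.log (N + 1 : ℕ) - Real.log n)
  have e4 := pri_ge b (Real.log (0 + 1 : ℕ) - Real.log n)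
  have e5 : (∑ i ∈ Finset.range N, if i + 1 = n then 2 / (b * (n : ℝ)) else 0) ≤ 2 / (b * n) := h3
  have e6 : pri b (Real.log (N : ℕ) - Real.log n) - pri b (Real.log (0 : ℕ) - Real.log n) ≤
      2 * Real.pi := by linarith
  have e7 : 2 * (pri b (Real.log (N + 1 : ℕ) - Real.log n) -
      pri b (Real.log (0 + 1 : ℕ) - Real.log n)) ≤ 4 * Real.pi := by linarith
  exact (add_le_add (add_le_add e6 e7) e5).trans (by linarith)

/-! ## The mean value theorem -/

/-- The quadratic form. -/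
lemma quad {b : ℝ} (hb : 0 < b) (S : Finset ℕ) (l : ℕ → ℝ) (a : ℕ → ℂ) :
    Integrable (fun t : ℝ => ‖∑ n ∈ S, a n * Complex.exp (-(l n * t * I))‖ ^ 2 *
      Real.exp (-(b * |t|))) ∧
    ∫ t : ℝ, ‖∑ n ∈ S, a n * Complex.exp (-(l n * t * I))‖ ^ 2 * Real.exp (-(b * |t|)) ≤
      ∑ n ∈ S, ∑ m ∈ S, ‖a n‖ * ‖a m‖ * ker b (l m - l n) := by
  have e : (fun t : ℝ => (((‖∑ n ∈ S, a n * Complex.exp (-(l n * t * I))‖ ^ 2 *
      Real.exp (-(b * |t|)) : ℝ)) : ℂ)) = fun t : ℝ => ∑ n ∈ S, ∑ m ∈ S,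
      (a n * (starRingEnd ℂ) (a m)) * (Complex.exp ((l m - l n : ℝ) * t * I) *
        Real.exp (-(b * |t|))) := by
    funext t
    rw [Complex.ofReal_mul, Complex.ofReal_pow, ← Complex.mul_conj', map_sum,
      Finset.sum_mul_sum, Finset.sum_mul]
    refine Finset.sum_congr rfl fun n _ => ?_
    rw [Finset.sum_mul]
    refine Finset.sum_congr rfl fun m _ => ?_
    rw [map_mul, ← Complex.exp_conj]
    have h1 : (starRingEnd ℂ) (-(l m * t * I)) = l m * t * I := by
      simp only [map_neg, map_mul, Complex.conj_ofReal, Complex.conj_I]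
      ring
    rw [h1]
    have h2 : Complex.exp ((l m - l n : ℝ) * t * I) =
        Complex.exp (-(l n * t * I)) * Complex.exp (l m * t * I) := by
      rw [← Complex.exp_add]
      congr 1
      push_cast
      ring
    rw [h2]
    ring
  have hint : Integrable (fun t : ℝ => ∑ n ∈ S, ∑ m ∈ S,
      (a n * (starRingEnd ℂ) (a m)) * (Complex.exp ((l m - l n : ℝ) * t * I) *
        Real.exp (-(b * |t|)))) :=
    integrable_finsetSum _ fun n _ => integrable_finsetSum _ fun m _ =>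
      (four hb (l m - l n)).1.const_mul _
  have hint' : Integrable (fun t : ℝ => (((‖∑ n ∈ S, a n * Complex.exp (-(l n * t * I))‖ ^ 2 *
      Real.exp (-(b * |t|)) : ℝ)) : ℂ)) := by
    rw [e]
    exact hint
  have hr := hint'.re
  refine ⟨by simpa only [RCLike.re_to_complex, Complex.ofReal_re] using hr, ?_⟩
  have h3 : ((∫ t : ℝ, ‖∑ n ∈ S, a n * Complex.exp (-(l n * t * I))‖ ^ 2 *
      Real.exp (-(b * |t|)) : ℝ) : ℂ) = ∑ n ∈ S, ∑ m ∈ S,
      (a n * (starRingEnd ℂ) (a m)) * (ker b (l m - l n) : ℂ) := by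
    rw [← integral_complex_ofReal, e, integral_finsetSum _ fun n _ =>
      integrable_finsetSum _ fun m _ => (four hb (l m - l n)).1.const_mul _]
    refine Finset.sum_congr rfl fun n _ => ?_
    rw [integral_finsetSum _ fun m _ => (four hb (l m - l n)).1.const_mul _]
    refine Finset.sum_congr rfl fun m _ => ?_
    rw [integral_const_mul, (four hb (l m - l n)).2]
  have h4 : ∫ t : ℝ, ‖∑ n ∈ S, a n * Complex.exp (-(l n * t * I))‖ ^ 2 *
      Real.exp (-(b * |t|)) ≤ ‖((∫ t : ℝ, ‖∑ n ∈ S, a n * Complex.exp (-(l n * t * I))‖ ^ 2 *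
      Real.exp (-(b * |t|)) : ℝ) : ℂ)‖ := by
    rw [Complex.norm_real]
    exact le_abs_self _
  refine h4.trans ?_
  rw [h3]
  refine (norm_sum_le _ _).trans (Finset.sum_le_sum fun n _ => ?_)
  refine (norm_sum_le _ _).trans (Finset.sum_le_sum fun m _ => ?_)
  rw [norm_mul, norm_mul, Complex.norm_conj, Complex.norm_real, Real.norm_eq_abs,
    abs_of_nonneg (ker_nonneg hb _)]

lemma sum_Icc (f : ℕ → ℝ) (N : ℕ) :
    ∑ n ∈ Finset.Icc 1 N, f n = ∑ i ∈ Finset.range N, f (i + 1) := by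
  rw [Finset.range_eq_Ico, Finset.sum_Ico_add' f 0 N 1]
  rfl

/-- **The mean value theorem.** -/
theorem mvt {b : ℝ} (hb : 0 < b) (N : ℕ) (a : ℕ → ℂ) :
    Integrable (fun t : ℝ => ‖∑ n ∈ Finset.Icc 1 N, a n *
      Complex.exp (-(Real.log n * t * I))‖ ^ 2 * Real.exp (-(b * |t|))) ∧
    ∫ t : ℝ, ‖∑ n ∈ Finset.Icc 1 N, a n * Complex.exp (-(Real.log n * t * I))‖ ^ 2 *
      Real.exp (-(b * |t|)) ≤ ∑ n ∈ Finset.Icc 1 N, (6 * Real.pi * n + 2 / b) * ‖a n‖ ^ 2 := by
  obtain ⟨h1, h2⟩ := quad hb (Finset.Icc 1 N) (fun n : ℕ => Real.log n) a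
  refine ⟨h1, h2.trans ?_⟩
  have hpos : ∀ n ∈ Finset.Icc 1 N, (0 : ℝ) < n := fun n hn => by
    exact_mod_cast (Finset.mem_Icc.1 hn).1
  have h3 : ∑ n ∈ Finset.Icc 1 N, ∑ m ∈ Finset.Icc 1 N,
      ‖a n‖ * ‖a m‖ * ker b (Real.log m - Real.log n) ≤
      ∑ n ∈ Finset.Icc 1 N, ∑ m ∈ Finset.Icc 1 N,
        (‖a n‖ ^ 2 * n * (ker b (Real.log m - Real.log n) / m) / 2 +
        ‖a m‖ ^ 2 * m * (ker b (Real.log n - Real.log m) / n) / 2) := by
    refine Finset.sum_le_sum fun n hn => Finset.sum_le_sum fun m hm => ?_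
    have hn0 := hpos n hn
    have hm0 := hpos m hm
    have hk : ker b (Real.log n - Real.log m) = ker b (Real.log m - Real.log n) := by
      rw [← ker_neg, neg_sub]
    rw [hk]
    have hk0 := ker_nonneg hb (Real.log m - Real.log n)
    have h4 : ‖a n‖ * ‖a m‖ ≤ ‖a n‖ ^ 2 * (n / m) / 2 + ‖a m‖ ^ 2 * (m / n) / 2 := by
      have h5 : 0 ≤ (‖a n‖ * n - ‖a m‖ * m) ^ 2 / (2 * (n * m)) := by positivity
      have h6 : (‖a n‖ * n - ‖a m‖ * m) ^ 2 / (2 * (n * m)) =
          ‖a n‖ ^ 2 * (n / m) / 2 + ‖a m‖ ^ 2 * (m / n) / 2 - ‖a n‖ * ‖a m‖ := by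
        field_simp
        ring
      linarith
    refine (mul_le_mul_of_nonneg_right h4 hk0).trans (le_of_eq ?_)
    field_simp
  refine h3.trans ?_
  simp only [Finset.sum_add_distrib]
  have h4 : ∑ n ∈ Finset.Icc 1 N, ∑ m ∈ Finset.Icc 1 N,
      ‖a m‖ ^ 2 * m * (ker b (Real.log n - Real.log m) / n) / 2 =
      ∑ n ∈ Finset.Icc 1 N, ∑ m ∈ Finset.Icc 1 N,
      ‖a n‖ ^ 2 * n * (ker b (Real.log m - Real.log n) / m) / 2 := Finset.sum_comm
  rw [h4, ← two_mul, Finset.mul_sum]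
  refine Finset.sum_le_sum fun n hn => ?_
  have hn0 := hpos n hn
  have h5 : 2 * ∑ m ∈ Finset.Icc 1 N,
      ‖a n‖ ^ 2 * n * (ker b (Real.log m - Real.log n) / m) / 2 =
      ‖a n‖ ^ 2 * n * ∑ m ∈ Finset.Icc 1 N, ker b (Real.log m - Real.log n) / m := by
    rw [Finset.mul_sum, Finset.mul_sum]
    refine Finset.sum_congr rfl fun m _ => ?_
    ring
  rw [h5, sum_Icc (fun m : ℕ => ker b (Real.log m - Real.log n) / m) N]
  have h6 := row hb (Finset.mem_Icc.1 hn).1 N
  have h7 : 0 ≤ ‖a n‖ ^ 2 * (n : ℝ) := by positivity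
  refine (mul_le_mul_of_nonneg_left h6 h7).trans (le_of_eq ?_)
  field_simp

end Pool.Agent.Lib.MP_6bc78b_nt.GP.H69

open Complex Filter Topology MeasureTheory ArithmeticFunction Set
open scoped ENNReal

namespace Pool.Agent.Lib.MP_6bc78b_nt.GP.G7

/-- the Dirichlet polynomial -/
lemma DP_eq (c : ℕ → ℂ) (N : ℕ) (t : ℝ) : DP c N t =
    ∑ n ∈ Finset.Icc 1 N, (c n / n) * Complex.exp (-(Real.log n * t * I)) := by
  unfold DP
  refine Finset.sum_congr rfl fun n hn => ?_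
  have h0 : (n : ℂ) ≠ 0 := by
    have := (Finset.mem_Icc.1 hn).1
    exact_mod_cast (by omega : n ≠ 0)
  rw [Complex.cpow_def_of_ne_zero h0, ← Complex.natCast_log,
    show (Real.log n : ℂ) * -(1 + t * I) = -(Real.log n : ℂ) + -(Real.log n * t * I) by ring,
    Complex.exp_add, Complex.exp_neg, ← Complex.ofReal_exp]
  have h1 : (0 : ℝ) < n := by
    have := (Finset.mem_Icc.1 hn).1
    exact_mod_cast this
  rw [Real.exp_log h1, Complex.ofReal_natCast]
  ring

/-- The mean value theorem with the constants `6 π`, `2`, as a Bochner integral. -/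
theorem mvtx_int (N : ℕ) (c : ℕ → ℂ) {b : ℝ} (hb : 0 < b) :
    Integrable (fun t : ℝ => ‖DP c N t‖ ^ 2 * Real.exp (-(b * |t|))) ∧
    ∫ t : ℝ, ‖DP c N t‖ ^ 2 * Real.exp (-(b * |t|)) ≤
      ∑ n ∈ Finset.Icc 1 N, (6 * Real.pi * n + 2 / b) * (‖c n‖ ^ 2 / (n : ℝ) ^ 2) := by
  obtain ⟨h1, h2⟩ := H69.mvt hb N (fun n => c n / n)
  simp only [DP_eq]
  refine ⟨h1, h2.trans (le_of_eq (Finset.sum_congr rfl fun n _ => ?_))⟩
  rw [norm_div, Complex.norm_natCast, div_pow]

/-- Row MVTX. -/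
theorem mvtx : MVTXStatement := by
  refine ⟨6 * Real.pi, by positivity, fun N c b hb _ => ?_⟩
  obtain ⟨h1, h2⟩ := mvtx_int N c hb
  rw [← ofReal_integral_eq_lintegral_ofReal h1 (ae_of_all _ fun t => by positivity)]
  refine ENNReal.ofReal_le_ofReal (h2.trans ?_)
  rw [Finset.mul_sum]
  refine Finset.sum_le_sum fun n _ => ?_
  have h3 : (2 : ℝ) ≤ 6 * Real.pi := by linarith [Real.pi_gt_three]
  have h4 : 2 / b ≤ 6 * Real.pi * (1 / b) := by
    rw [mul_one_div]
    exact div_le_div_of_nonneg_right h3 hb.le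
  have h5 : 0 ≤ ‖c n‖ ^ 2 / (n : ℝ) ^ 2 := by positivity
  calc (6 * Real.pi * n + 2 / b) * (‖c n‖ ^ 2 / (n : ℝ) ^ 2) ≤
      (6 * Real.pi * (1 / b + n)) * (‖c n‖ ^ 2 / (n : ℝ) ^ 2) :=
        mul_le_mul_of_nonneg_right (by linarith) h5
    _ = 6 * Real.pi * ((1 / b + n) * ‖c n‖ ^ 2 / (n : ℝ) ^ 2) := by ring

end Pool.Agent.Lib.MP_6bc78b_nt.GP.G7
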